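import Pool.Agent.Lib.MP_4fbe7c_an.WH.Iface
import Pool.Agent.Lib.MP_4fbe7c_an.SD.Calc
import Pool.Agent.Lib.MP_4fbe7c_an.FC.H82.Yine

/-!
Module DEL (helper63): `d_k ∂_x log u_k` is close to `Yc`.
-/

set_option autoImplicit false

open Set Filter Topology MeasureTheory intervalIntegral
open scoped Interval

namespace Pool.Agent.Lib.MP_4fbe7c_an.WH.H63

open Pool.Agent.Lib.MP_4fbe7c_an.SD Pool.Agent.Lib.MP_4fbe7c_an.FC

/-- the primitive of a continuous function -/
theorem derivOn_integral {L : ℝ} {g : ℝ → ℝ} (hg : ContinuousOn g (Icc 0 L)) :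
    DerivOn L (fun x => ∫ z in (0)..x, g z) g := by
  intro x hx
  have : Fact (x ∈ Icc 0 L) := ⟨hx⟩
  have h0 : (0 : ℝ) ∈ Icc 0 L := ⟨le_rfl, hx.1.trans hx.2⟩
  have hi : IntervalIntegrable g volume 0 x :=
    (hg.mono (uIcc_subset_Icc h0 hx)).intervalIntegrable
  have hm : StronglyMeasurableAtFilter g (𝓝[Icc 0 L] x) volume :=
    hg.stronglyMeasurableAtFilter_nhdsWithin measurableSet_Icc x
  exact intervalIntegral.integral_hasDerivWithinAt_right hi hm (hg x hx)

/-- Cauchy-Schwarz for a primitive -/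
theorem sq_integral_le {L : ℝ} (hL : 0 < L) {g : ℝ → ℝ} (hg : ContinuousOn g (Icc 0 L))
    {x : ℝ} (hx : x ∈ Icc 0 L) :
    (∫ z in (0)..x, g z) ^ 2 ≤ L * ∫ z in (0)..L, g z ^ 2 :=
  FC.H82.sq_le_of_zero hL (derivOn_integral hg) hg (by simp) hx

/-- the inequality for functions of `x` only -/
theorem del_aux {L E : ℝ} (hL : 0 < L) {ρ ρ' T R e : ℝ → ℝ} (hρ : DerivOn L ρ ρ')
    (cT : ContinuousOn T (Icc 0 L)) (cR : ContinuousOn R (Icc 0 L))
    (ce : ContinuousOn e (Icc 0 L)) (hρ' : ∀ x ∈ Icc 0 L, ρ' x = T x - R x - e x)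
    (h0 : ρ 0 = 0) (hρL : ρ L = 0) (he : ∀ x ∈ Icc 0 L, 0 ≤ e x)
    (hE : ∫ x in (0)..L, e x ≤ E) :
    ∫ x in (0)..L, (ρ x - (-(∫ z in (0)..x, R z) + x / L * ∫ z in (0)..L, R z)) ^ 2 ≤
      2 * L ^ 2 * (∫ x in (0)..L, (T x - (∫ z in (0)..L, T z) / L) ^ 2) + 2 * L * E ^ 2 := by
  have h0m : (0 : ℝ) ∈ Icc 0 L := ⟨le_rfl, hL.le⟩
  have hLm : L ∈ Icc (0 : ℝ) L := ⟨hL.le, le_rfl⟩
  have cρ' : ContinuousOn ρ' (Icc 0 L) :=
    ((cT.sub cR).sub ce).congr fun x hx => hρ' x hx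
  have ii : ∀ {g : ℝ → ℝ}, ContinuousOn g (Icc 0 L) → ∀ {x : ℝ}, x ∈ Icc 0 L →
      IntervalIntegrable g volume 0 x := fun hg x hx =>
    (hg.mono (uIcc_subset_Icc h0m hx)).intervalIntegrable
  have hrep : ∀ x ∈ Icc 0 L, ρ x =
      (∫ z in (0)..x, T z) - (∫ z in (0)..x, R z) - ∫ z in (0)..x, e z := by
    intro x hx
    have e1 := integral_deriv_sub hρ cρ' h0m hx
    rw [h0, sub_zero] at e1
    rw [← e1, ← intervalIntegral.integral_sub (ii cT hx) (ii cR hx),
      ← intervalIntegral.integral_sub ((ii cT hx).sub (ii cR hx)) (ii ce hx)]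
    refine intervalIntegral.integral_congr fun z hz => ?_
    exact hρ' z (uIcc_subset_Icc h0m hx hz)
  have hL0 : 0 = (∫ z in (0)..L, T z) - (∫ z in (0)..L, R z) - ∫ z in (0)..L, e z := by
    rw [← hrep L hLm, hρL]
  set S := ∫ x in (0)..L, (T x - (∫ z in (0)..L, T z) / L) ^ 2 with hSdef
  have cTb : ContinuousOn (fun x => T x - (∫ z in (0)..L, T z) / L) (Icc 0 L) :=
    cT.sub continuousOn_const
  have hpt : ∀ x ∈ Icc 0 L,
      (ρ x - (-(∫ z in (0)..x, R z) + x / L * ∫ z in (0)..L, R z)) ^ 2 ≤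
        2 * (L * S) + 2 * E ^ 2 := by
    intro x hx
    have hA := sq_integral_le hL cTb hx
    have e2 : (∫ z in (0)..x, (T z - (∫ z in (0)..L, T z) / L)) =
        (∫ z in (0)..x, T z) - x / L * ∫ z in (0)..L, T z := by
      rw [intervalIntegral.integral_sub (ii cT hx) intervalIntegrable_const,
        intervalIntegral.integral_const, sub_zero, smul_eq_mul]
      ring
    have he0 : 0 ≤ ∫ z in (0)..x, e z :=
      intervalIntegral.integral_nonneg hx.1 fun z hz => he z ⟨hz.1, hz.2.trans hx.2⟩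
    have heL : (∫ z in (0)..x, e z) ≤ ∫ z in (0)..L, e z := by
      rw [← intervalIntegral.integral_add_adjacent_intervals (ii ce hx)
        ((ce.mono (uIcc_subset_Icc hx hLm)).intervalIntegrable)]
      have : 0 ≤ ∫ z in x..L, e z :=
        intervalIntegral.integral_nonneg hx.2 fun z hz => he z ⟨hx.1.trans hz.1, hz.2⟩
      linarith
    have hEn : 0 ≤ ∫ z in (0)..L, e z := he0.trans heL
    have hxL0 : 0 ≤ x / L := div_nonneg hx.1 hL.le
    have hxL1 : x / L ≤ 1 := (div_le_one hL).2 hx.2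
    have hb : ((∫ z in (0)..x, e z) - x / L * ∫ z in (0)..L, e z) ^ 2 ≤ E ^ 2 := by
      apply sq_le_sq'
      · nlinarith
      · nlinarith
    have e3 : ρ x - (-(∫ z in (0)..x, R z) + x / L * ∫ z in (0)..L, R z) =
        (∫ z in (0)..x, (T z - (∫ z in (0)..L, T z) / L)) -
          ((∫ z in (0)..x, e z) - x / L * ∫ z in (0)..L, e z) := by
      rw [e2, hrep x hx]
      have : (∫ z in (0)..L, R z) = (∫ z in (0)..L, T z) - ∫ z in (0)..L, e z := by linarith
      rw [this]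
      ring
    rw [e3]
    nlinarith [sq_nonneg ((∫ z in (0)..x, (T z - (∫ z in (0)..L, T z) / L)) +
      ((∫ z in (0)..x, e z) - x / L * ∫ z in (0)..L, e z))]
  have cY : ContinuousOn (fun x => (ρ x -
      (-(∫ z in (0)..x, R z) + x / L * ∫ z in (0)..L, R z)) ^ 2) (Icc 0 L) := by
    have c1 := hρ.continuousOn
    have c2 := (derivOn_integral cR).continuousOn
    have c3 : ContinuousOn (fun x : ℝ => x / L * ∫ z in (0)..L, R z) (Icc 0 L) := by fun_prop
    exact (c1.sub (c2.neg.add c3)).pow 2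
  have hm := intervalIntegral.integral_mono_on (μ := volume) hL.le
    (cY.intervalIntegrable_of_Icc hL.le)
    (intervalIntegrable_const (μ := volume) (c := 2 * (L * S) + 2 * E ^ 2)) hpt
  rw [intervalIntegral.integral_const, sub_zero, smul_eq_mul] at hm
  refine hm.trans (le_of_eq ?_)
  ring

theorem del : DelStatement := by
  intro L b ε κ Cy m N d u v w t k hc t0 hr hk
  have hp : Pres L u k := by
    classical
    unfold PS at hk
    exact (Finset.mem_filter.1 hk).2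
  have hL := hc.hL
  have hS := hc.sol
  have hdk := hc.hd k
  have cu : ContinuousOn (fun p : ℝ × ℝ => u k p.1 p.2) (Ioi 0 ×ˢ Icc 0 L) := hS.cuIoi_log k
  have hne : ∀ p ∈ (Ioi (0 : ℝ) ×ˢ Icc (0 : ℝ) L), u k p.1 p.2 ≠ 0 :=
    fun p hp' => (hp p.1 hp'.1 p.2 hp'.2).ne'
  have cR : ContinuousOn (fun p : ℝ × ℝ => m p.2 - ∑ j, u j p.1 p.2) (Ioi 0 ×ˢ Icc 0 L) :=
    (hS.cont_rate_log hc.hm).mono (prod_mono Ioi_subset_Ici_self subset_rfl)
  have c4 : ContinuousOn (fun x => m x - ∑ j, u j t x) (Icc 0 L) :=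
    slice (g := fun t x => m x - ∑ j, u j t x) cR (mem_Ioi.2 t0)
  have c1 : ContinuousOn (fun x => v k t x / u k t x) (Icc 0 L) :=
    slice (g := fun t x => v k t x / u k t x) ((hS.cv k).div cu hne) (mem_Ioi.2 t0)
  have c2 : ContinuousOn (fun x => w k t x / u k t x) (Icc 0 L) :=
    slice (g := fun t x => w k t x / u k t x) ((hS.cw k).div cu hne) (mem_Ioi.2 t0)
  have hd : DerivOn L (fun x => d k * (v k t x / u k t x))
      (fun x => d k * (w k t x / u k t x - (v k t x / u k t x) ^ 2)) := fun x hx => by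
    have e := (hS.dxx k t t0 x hx).div (hS.dx k t t0 x hx) (hp t t0 x hx).ne'
    have hu := (hp t t0 x hx).ne'
    have e2 : (w k t x * u k t x - v k t x * v k t x) / u k t x ^ 2 =
        w k t x / u k t x - (v k t x / u k t x) ^ 2 := by
      field_simp
    rw [e2] at e
    exact e.const_mul (d k)
  have cT : ContinuousOn (fun x => Tt m d u w k t x) (Icc 0 L) :=
    (continuousOn_const.mul c2).add c4
  have ce : ContinuousOn (fun x => d k * (v k t x / u k t x) ^ 2) (Icc 0 L) :=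
    continuousOn_const.mul (c1.pow 2)
  have hE : ∫ x in (0)..L, d k * (v k t x / u k t x) ^ 2 ≤ Cy * ε ^ 2 := by
    rw [intervalIntegral.integral_const_mul]
    exact hr.y k hk
  exact del_aux hL hd cT c4 ce (fun x _ => by unfold Tt; ring)
    (by simp only [hS.b0 k t t0, zero_div, mul_zero])
    (by simp only [hS.bL k t t0, zero_div, mul_zero])
    (fun x _ => mul_nonneg hdk.le (sq_nonneg _)) hE

end Pool.Agent.Lib.MP_4fbe7c_an.WH.H63
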