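import Pool.Agent.Lib.MP_4fbe7c_an.WH.Iface
import Pool.Agent.Lib.MP_4fbe7c_an.SD.Calc
import Pool.Agent.Lib.MP_4fbe7c_an.SD.Logg
import Pool.Agent.Lib.MP_4fbe7c_an.FC.H16.PA

/-!
Module WLO (helper63): the sum of the geometric means is eventually bounded below.
-/

set_option autoImplicit false

open Set Filter Topology MeasureTheory intervalIntegral
open scoped Interval

namespace Pool.Agent.Lib.MP_4fbe7c_an.WH.H63

open Pool.Agent.Lib.MP_4fbe7c_an.SD Pool.Agent.Lib.MP_4fbe7c_an.FC

/-- A linear differential inequality `g' ≤ - k (g - c)` on `[T, ∞)`: eventually `g ≤ c + δ`. -/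
theorem barrier_ev {g g' : ℝ → ℝ} {T k c δ : ℝ} (hk : 0 < k) (hδ : 0 < δ)
    (hd : ∀ t, T ≤ t → HasDerivAt g (g' t) t) (hi : ∀ t, T ≤ t → g' t ≤ -(k * (g t - c))) :
    ∃ T' : ℝ, ∀ t, T' ≤ t → g t ≤ c + δ := by
  have hH : ∀ s, T ≤ s → HasDerivAt (fun s => (g s - c) * Real.exp (k * (s - T)))
      (g' s * Real.exp (k * (s - T)) + (g s - c) * (Real.exp (k * (s - T)) * (k * 1))) s := by
    intro s hs
    have h1 : HasDerivAt (fun s => g s - c) (g' s) s := (hd s hs).sub_const c
    have h2 : HasDerivAt (fun s => k * (s - T)) (k * 1) s :=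
      ((hasDerivAt_id s).sub_const T).const_mul k
    exact h1.mul h2.exp
  have hanti : AntitoneOn (fun s => (g s - c) * Real.exp (k * (s - T))) (Ici T) := by
    refine antitoneOn_of_deriv_nonpos (convex_Ici T)
      (fun s hs => (hH s hs).continuousAt.continuousWithinAt) ?_ ?_
    · intro s hs
      rw [interior_Ici] at hs
      exact (hH s (le_of_lt hs)).differentiableAt.differentiableWithinAt
    · intro s hs
      rw [interior_Ici] at hs
      have hs' : T ≤ s := le_of_lt hs
      rw [(hH s hs').deriv]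
      have h3 := hi s hs'
      have h4 : 0 < Real.exp (k * (s - T)) := Real.exp_pos _
      have h5 : g' s * Real.exp (k * (s - T)) + (g s - c) * (Real.exp (k * (s - T)) * (k * 1)) =
          (g' s + k * (g s - c)) * Real.exp (k * (s - T)) := by ring
      rw [h5]
      exact mul_nonpos_of_nonpos_of_nonneg (by linarith) h4.le
  refine ⟨T + |g T - c| / (k * δ), fun t ht => ?_⟩
  have hTt : T ≤ t := le_trans (le_add_of_nonneg_right (by positivity)) ht
  have h6 := hanti (mem_Ici.2 le_rfl) (mem_Ici.2 hTt) hTt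
  simp only [sub_self, mul_zero, Real.exp_zero, mul_one] at h6
  by_contra hcon
  push Not at hcon
  have h7 : |g T - c| ≤ k * (t - T) * δ := by
    have : |g T - c| / (k * δ) ≤ t - T := by linarith
    rw [div_le_iff₀ (by positivity)] at this
    linarith
  have h8 : k * (t - T) + 1 ≤ Real.exp (k * (t - T)) := Real.add_one_le_exp _
  have h9 : δ * Real.exp (k * (t - T)) ≤ (g t - c) * Real.exp (k * (t - T)) :=
    mul_le_mul_of_nonneg_right (by linarith) (Real.exp_pos _).le
  have h10 := le_abs_self (g T - c)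
  nlinarith

theorem wlo (h1 : OscStatement) (h2 : LseStatement) : WLoStatement := by
  intro L b ε K T₀ m μ N d u v w hc hw hK hex hT0 hy
  classical
  have hL := hc.hL
  have hS := hc.sol
  have hb := hw.hb
  have hPS : ∀ k, k ∈ PS L u ↔ Pres L u k := by
    intro k
    unfold PS
    simp
  have hne : (PS L u).Nonempty := by
    obtain ⟨k, hk⟩ := hex
    exact ⟨k, (hPS k).2 hk⟩
  set κ := 1 + L * K with hκ
  have hWpos : ∀ t, 0 < Wg L u t := by
    intro t
    unfold Wg
    exact Finset.sum_pos (fun k _ => Real.exp_pos _) hne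
  -- pointwise upper bound
  have hup : ∀ t, T₀ ≤ t → ∀ x ∈ Icc 0 L, ∑ k, u k t x ≤ Real.exp κ * Wg L u t := by
    intro t ht x hx
    have t0 : 0 < t := lt_of_lt_of_le hT0 ht
    have hz : ∀ k ∈ Finset.univ, k ∉ PS L u → u k t x = 0 := by
      intro k _ hk
      rcases (FC.H16.pa L (2 * b) m N d u v w hc k).1 with h | h
      · exact absurd ((hPS k).2 h) hk
      · exact h t t0.le x hx
    rw [← Finset.sum_subset (Finset.subset_univ (PS L u)) hz]
    unfold Wg
    rw [Finset.mul_sum]
    refine Finset.sum_le_sum fun k hk => ?_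
    have hp := (hPS k).1 hk
    have cu : ContinuousOn (fun p : ℝ × ℝ => u k p.1 p.2) (Ioi 0 ×ˢ Icc 0 L) := hS.cuIoi_log k
    have cv : ContinuousOn (v k t) (Icc 0 L) := slice (hS.cv k) (mem_Ioi.2 t0)
    have ho := ((h1 L K (u k t) (v k t) hL hK (hS.dx k t t0) cv (fun x hx => hp t t0 x hx)
      (hy k hk t ht)).1 x hx).1
    have ho' := (abs_le.1 ho).2
    have hu := hp t t0 x hx
    have e1 : Real.log (u k t x) ≤ lg L u k t / L + κ := by
      have : lg L u k t = ∫ x in (0)..L, Real.log (u k t x) := rfl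
      rw [this]
      linarith
    have e2 : u k t x ≤ Real.exp (lg L u k t / L + κ) := by
      rw [← Real.exp_log hu]
      exact Real.exp_le_exp.2 e1
    rw [Real.exp_add] at e2
    unfold gm
    linarith
  -- lower bound of `R1`
  have hR1 : ∀ t, T₀ ≤ t → L * (b / 2 - Real.exp κ * Wg L u t) ≤ R1 L m u t := by
    intro t ht
    have t0 : 0 < t := lt_of_lt_of_le hT0 ht
    have cR : ContinuousOn (fun p : ℝ × ℝ => m p.2 - ∑ j, u j p.1 p.2) (Ioi 0 ×ˢ Icc 0 L) :=
      (hS.cont_rate_log hc.hm).mono (prod_mono Ioi_subset_Ici_self subset_rfl)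
    have c4 : ContinuousOn (fun x => m x - ∑ j, u j t x) (Icc 0 L) :=
      slice (g := fun t x => m x - ∑ j, u j t x) cR (mem_Ioi.2 t0)
    have hm := intervalIntegral.integral_mono_on (μ := volume)
      (f := fun _ => b / 2 - Real.exp κ * Wg L u t) (g := fun x => m x - ∑ j, u j t x) hL.le
      intervalIntegrable_const (c4.intervalIntegrable_of_Icc hL.le) (by
        intro x hx
        have e1 := hup t ht x hx
        have e2 := hw.hm x hx
        have e3 := (abs_le.1 (hw.hμ x hx)).1
        have e4 := hw.hεb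
        have e5 := hw.hε
        have e6 : -ε ≤ ε * μ x := by nlinarith
        show b / 2 - Real.exp κ * Wg L u t ≤ m x - ∑ j, u j t x
        rw [e2]
        linarith)
    rw [intervalIntegral.integral_const, sub_zero, smul_eq_mul] at hm
    exact hm
  -- the function `1 / W`
  have hder : ∀ t, T₀ ≤ t → ∃ D : ℝ, HasDerivAt (fun t => L * Real.log (Wg L u t)) D t ∧
      L * (b / 2 - Real.exp κ * Wg L u t) ≤ D := by
    intro t ht
    have t0 : 0 < t := lt_of_lt_of_le hT0 ht
    have e := (h2 L (2 * b) m N d u v w (PS L u) hc hne (fun k hk => (hPS k).1 hk) t t0).2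
    refine ⟨_, e, ?_⟩
    have e1 := hR1 t ht
    have e2 : 0 ≤ ∑ k ∈ PS L u, gm L u k t / (∑ i ∈ PS L u, gm L u i t) *
        (d k * yy L u v k t) := by
      refine Finset.sum_nonneg fun k hk => ?_
      refine mul_nonneg (div_nonneg (Real.exp_pos _).le (hWpos t).le)
        (mul_nonneg (hc.hd k).le ?_)
      exact intervalIntegral.integral_nonneg hL.le fun x _ => sq_nonneg _
    linarith
  choose! D hD1 hD2 using hder
  set g : ℝ → ℝ := fun t => Real.exp (-(L * Real.log (Wg L u t)) / L) with hg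
  have hgW : ∀ t, g t * Wg L u t = 1 := by
    intro t
    have e1 : -(L * Real.log (Wg L u t)) / L = -Real.log (Wg L u t) := by field_simp
    simp only [hg]
    rw [e1, Real.exp_neg, Real.exp_log (hWpos t)]
    exact inv_mul_cancel₀ (hWpos t).ne'
  have hgd : ∀ t, T₀ ≤ t → HasDerivAt g (g t * (-(D t) / L)) t := by
    intro t ht
    exact (((hD1 t ht).neg).div_const L).exp
  have hgi : ∀ t, T₀ ≤ t → g t * (-(D t) / L) ≤
      -(b / 2 * (g t - 2 * Real.exp κ / b)) := by
    intro t ht
    have e1 := hD2 t ht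
    have e2 : b / 2 - Real.exp κ * Wg L u t ≤ D t / L := by
      rw [le_div_iff₀ hL]
      linarith
    have g0 : 0 < g t := Real.exp_pos _
    have e3 := mul_le_mul_of_nonneg_left e2 g0.le
    have e4 : g t * (b / 2 - Real.exp κ * Wg L u t) = b / 2 * g t - Real.exp κ := by
      have := hgW t
      calc g t * (b / 2 - Real.exp κ * Wg L u t)
          = b / 2 * g t - Real.exp κ * (g t * Wg L u t) := by ring
        _ = b / 2 * g t - Real.exp κ := by rw [this, mul_one]
    have e5 : b / 2 * (g t - 2 * Real.exp κ / b) = b / 2 * g t - Real.exp κ := by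
      field_simp
    have e6 : g t * (-(D t) / L) = -(g t * (D t / L)) := by ring
    rw [e5, e6]
    linarith
  obtain ⟨T', hT'⟩ := barrier_ev (g := g) (g' := fun t => g t * (-(D t) / L)) (T := T₀)
    (k := b / 2) (c := 2 * Real.exp κ / b) (δ := 2 * Real.exp κ / b) (by linarith)
    (by positivity) hgd hgi
  refine ⟨T', fun t ht => ?_⟩
  have e1 := hT' t ht
  have e2 := hgW t
  have hW := hWpos t
  have e3 : 2 * Real.exp κ / b + 2 * Real.exp κ / b = 4 * Real.exp κ / b := by ring
  rw [e3] at e1
  have hE : 0 < Real.exp κ := Real.exp_pos κ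
  have e4 : 1 ≤ 4 * Real.exp κ / b * Wg L u t := by
    rw [← e2]
    exact mul_le_mul_of_nonneg_right e1 hW.le
  rw [div_le_iff₀ (by positivity)]
  have e5 : 4 * Real.exp κ / b * Wg L u t = (Wg L u t * (4 * Real.exp κ)) / b := by ring
  rw [e5, le_div_iff₀ hb] at e4
  linarith

end Pool.Agent.Lib.MP_4fbe7c_an.WH.H63
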